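import Mathlib

/-!
Groups generated by three class transpositions.

The group generated by the class transpositions `0(2) <-> 1(2)`, `0(2) <-> 5(6)` and
`10(12) <-> 8(15)` setwise stabilizes no union of residue classes modulo `60` except the empty set
and all of the integers, the integers `0, 1, ..., 47` lie in one orbit, and nevertheless the group
is not transitive on the nonnegative integers: the orbit of `48` consists of the numbers
`50 * 3 ^ j - 2` and `50 * 3 ^ j - 1`.
-/

namespace Pool.Agent.Results.MP_d0f150_al.ThreeClassTranspositions

/-- The residue class `r(m) = r + mℤ`. -/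
def ResidueClass (r m : ℕ) : Set ℤ := {n | ∃ k : ℤ, n = r + k * m}

/-- `t` is the class transposition which interchanges the disjoint residue classes `r₁(m₁)` and
`r₂(m₂)`, where `0 ≤ r₁ < m₁` and `0 ≤ r₂ < m₂`. -/
structure IsClassTransposition (t : Equiv.Perm ℤ) (r₁ m₁ r₂ m₂ : ℕ) : Prop where
  lt₁ : r₁ < m₁
  lt₂ : r₂ < m₂
  disj : Disjoint (ResidueClass r₁ m₁) (ResidueClass r₂ m₂)
  map₁ : ∀ k : ℤ, t (r₁ + k * m₁) = r₂ + k * m₂
  map₂ : ∀ k : ℤ, t (r₂ + k * m₂) = r₁ + k * m₁
  fix : ∀ n : ℤ, n ∉ ResidueClass r₁ m₁ → n ∉ ResidueClass r₂ m₂ → t n = n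

/-- `U` is a union of residue classes modulo `m`. -/
def IsUnionOfClasses (m : ℕ) (U : Set ℤ) : Prop :=
  ∃ R : Set ℕ, (∀ r ∈ R, r < m) ∧ U = ⋃ r ∈ R, ResidueClass r m

/-- The group `G` setwise stabilizes `U`. -/
def Stabilizes (G : Subgroup (Equiv.Perm ℤ)) (U : Set ℤ) : Prop :=
  ∀ g ∈ G, (fun n => g n) '' U = U

/-- The assertion of the question, with the number `42` replaced by `N`: whenever `G` is generated
by three class transpositions, `m` is the least common multiple of the six moduli, `G` setwise
stabilizes no union of residue classes modulo `m` except `∅` and `ℤ`, and the integers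
`0, 1, ..., N` lie in one orbit of `G`, then `G` acts transitively on the nonnegative integers. -/
def Assertion (N : ℤ) : Prop :=
  ∀ (t₁ t₂ t₃ : Equiv.Perm ℤ) (r₁ m₁ s₁ n₁ r₂ m₂ s₂ n₂ r₃ m₃ s₃ n₃ : ℕ),
    IsClassTransposition t₁ r₁ m₁ s₁ n₁ →
    IsClassTransposition t₂ r₂ m₂ s₂ n₂ →
    IsClassTransposition t₃ r₃ m₃ s₃ n₃ →
    (∀ U : Set ℤ,
      IsUnionOfClasses ((((((m₁.lcm n₁).lcm m₂).lcm n₂).lcm m₃).lcm n₃)) U →
      Stabilizes (Subgroup.closure {t₁, t₂, t₃}) U → U = ∅ ∨ U = Set.univ) →
    (∀ a b : ℤ, 0 ≤ a → a ≤ N → 0 ≤ b → b ≤ N →
      ∃ g ∈ Subgroup.closure {t₁, t₂, t₃}, g a = b) →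
    ∀ a b : ℤ, 0 ≤ a → 0 ≤ b → ∃ g ∈ Subgroup.closure {t₁, t₂, t₃}, g a = b

/-! ### The three class transpositions -/

def f₁ (n : ℤ) : ℤ := if n % 2 = 0 then n + 1 else n - 1
def f₂ (n : ℤ) : ℤ := if n % 2 = 0 then 3 * n + 5 else if n % 6 = 5 then (n - 5) / 3 else n
def f₃ (n : ℤ) : ℤ :=
  if n % 12 = 10 then 15 * (n / 12) + 8 else if n % 15 = 8 then 12 * (n / 15) + 10 else n

theorem f₁_inv : Function.Involutive f₁ := by
  intro n
  unfold f₁
  split_ifs <;> omega

theorem f₂_inv : Function.Involutive f₂ := by
  intro n
  unfold f₂
  split_ifs <;> omega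

theorem f₃_inv : Function.Involutive f₃ := by
  intro n
  unfold f₃
  split_ifs <;> omega

def t₁ : Equiv.Perm ℤ := f₁_inv.toPerm
def t₂ : Equiv.Perm ℤ := f₂_inv.toPerm
def t₃ : Equiv.Perm ℤ := f₃_inv.toPerm

theorem t₁_apply (n : ℤ) : t₁ n = f₁ n := rfl
theorem t₂_apply (n : ℤ) : t₂ n = f₂ n := rfl
theorem t₃_apply (n : ℤ) : t₃ n = f₃ n := rfl

theorem mem_residueClass {r m : ℕ} (hr : r < m) (n : ℤ) :
    n ∈ ResidueClass r m ↔ n % m = r := by
  unfold ResidueClass
  constructor
  · rintro ⟨k, rfl⟩
    rw [Int.add_mul_emod_self_right]
    exact Int.emod_eq_of_lt (by positivity) (by exact_mod_cast hr)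
  · intro h
    refine ⟨n / m, ?_⟩
    have := Int.emod_add_mul_ediv n m
    rw [h] at this
    linarith [mul_comm (m : ℤ) (n / m)]

theorem ct₁ : IsClassTransposition t₁ 0 2 1 2 where
  lt₁ := by norm_num
  lt₂ := by norm_num
  disj := by
    rw [Set.disjoint_left]
    intro n h1 h2
    rw [mem_residueClass (by norm_num)] at h1 h2
    push_cast at h1 h2
    omega
  map₁ := by
    intro k
    rw [t₁_apply]
    unfold f₁
    push_cast
    split_ifs <;> omega
  map₂ := by
    intro k
    rw [t₁_apply]
    unfold f₁
    push_cast
    split_ifs <;> omega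
  fix := by
    intro n h1 h2
    rw [mem_residueClass (by norm_num)] at h1 h2
    push_cast at h1 h2
    omega

theorem ct₂ : IsClassTransposition t₂ 0 2 5 6 where
  lt₁ := by norm_num
  lt₂ := by norm_num
  disj := by
    rw [Set.disjoint_left]
    intro n h1 h2
    rw [mem_residueClass (by norm_num)] at h1 h2
    push_cast at h1 h2
    omega
  map₁ := by
    intro k
    rw [t₂_apply]
    unfold f₂
    push_cast
    split_ifs <;> omega
  map₂ := by
    intro k
    rw [t₂_apply]
    unfold f₂
    push_cast
    split_ifs <;> omega
  fix := by
    intro n h1 h2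
    rw [mem_residueClass (by norm_num)] at h1 h2
    push_cast at h1 h2
    rw [t₂_apply]
    unfold f₂
    split_ifs <;> omega

theorem ct₃ : IsClassTransposition t₃ 10 12 8 15 where
  lt₁ := by norm_num
  lt₂ := by norm_num
  disj := by
    rw [Set.disjoint_left]
    intro n h1 h2
    rw [mem_residueClass (by norm_num)] at h1 h2
    push_cast at h1 h2
    omega
  map₁ := by
    intro k
    rw [t₃_apply]
    unfold f₃
    push_cast
    split_ifs <;> omega
  map₂ := by
    intro k
    rw [t₃_apply]
    unfold f₃
    push_cast
    split_ifs <;> omega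
  fix := by
    intro n h1 h2
    rw [mem_residueClass (by norm_num)] at h1 h2
    push_cast at h1 h2
    rw [t₃_apply]
    unfold f₃
    split_ifs <;> omega

/-- The group. -/
def G : Subgroup (Equiv.Perm ℤ) := Subgroup.closure {t₁, t₂, t₃}

theorem t₁_mem : t₁ ∈ G := Subgroup.subset_closure (by simp)
theorem t₂_mem : t₂ ∈ G := Subgroup.subset_closure (by simp)
theorem t₃_mem : t₃ ∈ G := Subgroup.subset_closure (by simp)

/-! ### The orbit of `0` -/

/-- The four moves: the three generators, and the identity. -/
def move (i n : ℕ) : ℕ :=
  if i = 0 then (if n % 2 = 0 then n + 1 else n - 1)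
  else if i = 1 then
    (if n % 2 = 0 then 3 * n + 5 else if n % 6 = 5 then (n - 5) / 3 else n)
  else if i = 2 then
    (if n % 12 = 10 then 15 * (n / 12) + 8 else if n % 15 = 8 then 12 * (n / 15) + 10 else n)
  else n

def run : ℕ → ℕ → ℕ → ℕ
  | 0, _, n => n
  | k + 1, w, n => run k (w / 4) (move (w % 4) n)

theorem move_mem (i n : ℕ) : ∃ g ∈ G, g (n : ℤ) = (move i n : ℤ) := by
  unfold move
  by_cases h0 : i = 0
  · refine ⟨t₁, t₁_mem, ?_⟩
    rw [t₁_apply, if_pos h0]
    unfold f₁
    split_ifs <;> omega
  · by_cases h1 : i = 1
    · refine ⟨t₂, t₂_mem, ?_⟩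
      rw [t₂_apply, if_neg h0, if_pos h1]
      unfold f₂
      split_ifs <;> omega
    · by_cases h2 : i = 2
      · refine ⟨t₃, t₃_mem, ?_⟩
        rw [t₃_apply, if_neg h0, if_neg h1, if_pos h2]
        unfold f₃
        split_ifs <;> omega
      · refine ⟨1, G.one_mem, ?_⟩
        rw [if_neg h0, if_neg h1, if_neg h2]
        rfl

theorem run_mem (k w n : ℕ) : ∃ g ∈ G, g (n : ℤ) = (run k w n : ℤ) := by
  induction k generalizing w n with
  | zero => exact ⟨1, G.one_mem, rfl⟩
  | succ k ih =>
    obtain ⟨g, hg, h⟩ := move_mem (w % 4) n
    obtain ⟨g', hg', h'⟩ := ih (w / 4) (move (w % 4) n)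
    refine ⟨g' * g, G.mul_mem hg' hg, ?_⟩
    rw [Equiv.Perm.mul_apply, h, h']
    rfl

/-- The words leading from `0, 1, ..., 59` to `0`, written in base `4` (the entries `48` and `49`
are void). -/
def words : List ℕ :=
  [34175792574734561318320347298712833833643272357706444319152665725155515612490248800367393390985215,
  34175792574734561318320347298712833833643272357706444319152665725155515612490248800367393390985212,
  34175792574734561318320347298712833833643272357706444319152665725155515612490248800367392604128785,
  34175792574734561318320347298712833833643272357706444319152665725155515612490248800367390243559492,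
  34175792574734561318320347298712833833643272357706444319152665725155515612490248800367393390985204,
  34175792574734561318320347298712833833643272357706444319152665725155515612490248800367393390985213,
  34175792574734561318320347298712833833643272357706444319152665725155515612490248800315825971405073,
  34175792574734561318320347298712833833643272357706444319152665725155515612490248800161123712664644,
  34175792574734561318320347298712833833643272357706444319152665725155515612490248800367393194271110,
  34175792574734561318320347298712833833643272357706444319152665725155515612490248800367392604128792,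
  34175792574734561318320347298712833833643272357706444319152665725155515612490248800367393341806689,
  34175792574734561318320347298712833833643272357706444319152665725155515612490248800367393194271108,
  34175792574734561318320347298712833833643272357706444253737147095090648436405927977957379974205713,
  34175792574734561318320347298712833833643272357706444057490591204896046908152965510727339723867204,
  34175792574734561318320347298712833833643272357706444319152665725155515612490248800367393390937185,
  34175792574734561318320347298712833833643272357706444319152665725155515612490248800367393390793092,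
  34175792574734561318320347298712833833643272357706444319152665725155515612490248800367393390985028,
  34175792574734561318320347298712833833643272357706444319152665725155515612490248800367393390985169,
  27914402456372484438315404352970629440152676064836139784477654381342739099643270909318248468123921,
  9130232101286253798300575515744016259680887186225226180452620349904409561102337236170813699540036,
  34175792574734561318320347298712833833643272357706444302798786068668640973496479603143043040299281,
  34175792574734561318320347298712833833643272357706444253737147099208017056515172011469991988241476,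
  34175792574734561318320347298712833833643272357706444319152665725155515612490248800364170427261457,
  34175792574734561318320347298712833833643272357706444319152665725155515612490248800354501536090180,
  34175792574734561318320347298712833833643267865566419054490216785161605029881790737029681476866321,
  34175792574734561318320347298712833833643254389146343260502869965179873282056416547016545734509636,
  34175792574734561318320347298712833833643272357706444319152665725155515612490248800364170427261465,
  34175792574734561318320347298712833833643272357706444319152665725155515612490248800354501536090212,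
  34175792574734561318320347298712833833643272357706444319152665725155515612490248800367390243559524,
  34175792574734561318320347298712833833643272357706444319152665725155515612490248800367392604128793,
  34175792574734561318320347298712833828932725981764305730366469551508839198295055140720540049283345,
  34175792574734561318320347298712833814801086853937889964007881030568809955709474161779980024177732,
  34175792574734561318320347298712833833643272357706444319152665664232566382131436609696574525247761,
  34175792574734561318320347298712833833643272357706444319152665481463718691055000037684117928035396,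
  34175792574734561318320347298712833833643272357706444319152665725155515612490248800367393387911558,
  34175792574734561318320347298712833833643272357706444319152665725155515612490248800367393378690584,
  34175792574734561318320347298712833828932725981764305730366469551508839198295055140720540049283353,
  34175792574734561318320347298712833814801086853937889964007881030568809955709474161779980024177764,
  34175792574734561318320347298712833833643272357706444319152665725155515612490248800367393390216801,
  34175792574734561318320347298712833833643272357706444319152665725155515612490248800367393387911556,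
  34175792574734561318320347298712833833643272357706444315064195810776461413984978748966767552436497,
  34175792574734561318320347298712833833643272357706444302798786067639298818469168594764890036790340,
  34175792574734561318320347298712833833643272357706444319151667563555388239770583653321664365695249,
  34175792574734561318320347298712833833643272357706444319148673078755006121611588212184477289825348,
  34175792574734561318320347298712833833643272357706444319152665725155515612490245420844983840706961,
  34175792574734561318320347298712833833643272357706444319152665725155515612490235282277755189872196,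
  34175792574734561318320347298712833833643272357706444319152665725155515612490248800367393390982214,
  34175792574734561318320347298712833833643272357706444319152665725155515612490248800367393390973208,
  34175792574734561318320347298712833833643272357706444319152665725155515612490248800367393390985215,
  34175792574734561318320347298712833833643272357706444319152665725155515612490248800367393390985215,
  34175792574734561318320347298712833833643272357706444319151667563545881001501851231714834097707281,
  34175792574734561318320347298712833833643272357706444319148673078716977168536658525757156217873476,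
  34175792574734561318320347298712833833643272357706444319152665725155515612490248800367393390982212,
  34175792574734561318320347298712833833643272357706444319152665725155515612490248800367393390984465,
  34175792574734561318320347298712833833643272357706444319152665725155515612490248799542314677864849,
  34175792574734561318320347298712833833643272357706444319152665725155515612490248797067078538503748,
  34175792574734561318320347298712833833643272357706444319152665725155515612490248800367393390216777,
  34175792574734561318320347298712833833643272357706444319152665725155515612490248800367393387911460,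
  33784455692336931513320038364603946059050110089402050285735477516167217080437312682176821833306385,
  32610445045144042098319111562277282735270623284488868185483912889202321484278504327605107160269892]

def checkFrom : ℕ → List ℕ → Bool
  | _, [] => true
  | n, w :: l => (Nat.beq n 48 || Nat.beq n 49 || Nat.beq (run 162 w n) 0) && checkFrom (n + 1) l

theorem checkFrom_spec (l : List ℕ) : ∀ (n : ℕ), checkFrom n l = true →
    ∀ i : ℕ, i < l.length → n + i ≠ 48 → n + i ≠ 49 → ∃ g ∈ G, g ((n + i : ℕ) : ℤ) = 0 := by
  induction l with
  | nil =>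
    intro n _ i hi
    simp at hi
  | cons w l ih =>
    intro n h i hi h48 h49
    rw [checkFrom, Bool.and_eq_true] at h
    rcases i with _ | i
    · have h1 := h.1
      rw [Bool.or_eq_true, Bool.or_eq_true] at h1
      rcases h1 with (h1 | h1) | h1
      · exact absurd (Nat.eq_of_beq_eq_true h1) h48
      · exact absurd (Nat.eq_of_beq_eq_true h1) h49
      · have h2 := Nat.eq_of_beq_eq_true h1
        obtain ⟨g, hg, hgn⟩ := run_mem 162 w n
        refine ⟨g, hg, ?_⟩
        rw [h2] at hgn
        exact_mod_cast hgn
    · have h3 := ih (n + 1) h.2 i (by simpa using hi) (by omega) (by omega)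
      have h4 : n + (i + 1) = n + 1 + i := by ring
      rw [h4]
      exact h3

theorem check_words : checkFrom 0 words = true := by decide +kernel

theorem words_length : words.length = 60 := by decide +kernel

theorem to_zero (n : ℕ) (hn : n < 60) (h48 : n ≠ 48) (h49 : n ≠ 49) :
    ∃ g ∈ G, g (n : ℤ) = 0 := by
  have h := checkFrom_spec words 0 check_words n (by rw [words_length]; exact hn)
    (by omega) (by omega)
  rwa [Nat.zero_add] at h

theorem to_zero_int (n : ℤ) (h0 : 0 ≤ n) (hn : n < 60) (h48 : n ≠ 48) (h49 : n ≠ 49) :
    ∃ g ∈ G, g n = 0 := by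
  obtain ⟨m, rfl⟩ := Int.eq_ofNat_of_zero_le h0
  exact to_zero m (by omega) (by omega) (by omega)

/-! ### No union of residue classes modulo `60` is invariant -/

theorem stabilizes_iff {U : Set ℤ} (hU : Stabilizes G U) {g : Equiv.Perm ℤ} (hg : g ∈ G) (n : ℤ) :
    g n ∈ U ↔ n ∈ U := by
  have h := hU g hg
  constructor
  · intro h1
    rw [← h] at h1
    obtain ⟨m, hm, hmn⟩ := h1
    have : m = n := g.injective hmn
    rwa [this] at hm
  · intro h1
    rw [← h]
    exact ⟨n, h1, rfl⟩

theorem union_periodic {U : Set ℤ} (hU : IsUnionOfClasses 60 U) (n : ℤ) :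
    n ∈ U ↔ n % 60 ∈ U := by
  obtain ⟨R, hR, rfl⟩ := hU
  simp only [Set.mem_iUnion]
  constructor
  · rintro ⟨r, hr, h⟩
    refine ⟨r, hr, ?_⟩
    rw [mem_residueClass (hR r hr)] at h ⊢
    push_cast at h ⊢
    omega
  · rintro ⟨r, hr, h⟩
    refine ⟨r, hr, ?_⟩
    rw [mem_residueClass (hR r hr)] at h ⊢
    push_cast at h ⊢
    omega

theorem mem_iff_zero_mem {U : Set ℤ} (hU : IsUnionOfClasses 60 U) (hS : Stabilizes G U) (n : ℤ) :
    n ∈ U ↔ (0 : ℤ) ∈ U := by
  have key : ∀ k : ℤ, 0 ≤ k → k < 60 → k ≠ 48 → k ≠ 49 → (k ∈ U ↔ (0 : ℤ) ∈ U) := by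
    intro k h0 h1 h2 h3
    obtain ⟨g, hg, h⟩ := to_zero_int k h0 h1 h2 h3
    rw [← stabilizes_iff hS hg k, h]
  have h48 : (48 : ℤ) ∈ U ↔ (0 : ℤ) ∈ U := by
    have h1 : t₂ 48 = 149 := by rw [t₂_apply]; decide
    rw [← stabilizes_iff hS t₂_mem 48, h1, union_periodic hU]
    exact key 29 (by norm_num) (by norm_num) (by norm_num) (by norm_num)
  have h49 : (49 : ℤ) ∈ U ↔ (0 : ℤ) ∈ U := by
    have h1 : t₁ 49 = 48 := by rw [t₁_apply]; decide
    rw [← stabilizes_iff hS t₁_mem 49, h1, h48]
  rw [union_periodic hU n]
  have h0 : 0 ≤ n % 60 := Int.emod_nonneg n (by norm_num)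
  have h1 : n % 60 < 60 := Int.emod_lt_of_pos n (by norm_num)
  by_cases h2 : n % 60 = 48
  · rw [h2, h48]
  · by_cases h3 : n % 60 = 49
    · rw [h3, h49]
    · exact key _ h0 h1 h2 h3

theorem condition_one (U : Set ℤ) (hU : IsUnionOfClasses 60 U) (hS : Stabilizes G U) :
    U = ∅ ∨ U = Set.univ := by
  by_cases h : (0 : ℤ) ∈ U
  · right
    ext n
    simp [mem_iff_zero_mem hU hS n, h]
  · left
    ext n
    simp [mem_iff_zero_mem hU hS n, h]

theorem condition_two (a b : ℤ) (ha : 0 ≤ a) (ha' : a ≤ 47) (hb : 0 ≤ b) (hb' : b ≤ 47) :
    ∃ g ∈ G, g a = b := by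
  obtain ⟨g, hg, h⟩ := to_zero_int a ha (by omega) (by omega) (by omega)
  obtain ⟨g', hg', h'⟩ := to_zero_int b hb (by omega) (by omega) (by omega)
  refine ⟨g'⁻¹ * g, G.mul_mem (G.inv_mem hg') hg, ?_⟩
  rw [Equiv.Perm.mul_apply, h, ← h']
  exact g'.symm_apply_apply b

/-! ### The orbit of `48` -/

/-- The numbers `50 * 3 ^ j - 2` and `50 * 3 ^ j - 1`. -/
def Orb : Set ℤ := {n | ∃ j : ℕ, n = 50 * 3 ^ j - 2 ∨ n = 50 * 3 ^ j - 1}

theorem f₁_orb {n : ℤ} (h : n ∈ Orb) : f₁ n ∈ Orb := by
  obtain ⟨j, h⟩ := h
  refine ⟨j, ?_⟩
  unfold f₁
  rcases h with h | h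
  · right
    split_ifs <;> omega
  · left
    split_ifs <;> omega

theorem f₂_orb {n : ℤ} (h : n ∈ Orb) : f₂ n ∈ Orb := by
  obtain ⟨j, h⟩ := h
  rcases h with h | h
  · refine ⟨j + 1, Or.inr ?_⟩
    unfold f₂
    rw [pow_succ]
    split_ifs <;> omega
  · rcases j with _ | j
    · refine ⟨0, Or.inr ?_⟩
      unfold f₂
      rw [h]
      norm_num
    · refine ⟨j, Or.inl ?_⟩
      unfold f₂
      rw [pow_succ] at h
      split_ifs <;> omega

theorem f₃_orb {n : ℤ} (h : n ∈ Orb) : f₃ n ∈ Orb := by
  have h1 : f₃ n = n := by
    obtain ⟨j, h⟩ := h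
    have h2 : (3 : ℤ) ^ j = 1 ∨ ∃ i : ℤ, (3 : ℤ) ^ j = 3 * (2 * i + 1) := by
      rcases j with _ | j
      · left
        rfl
      · right
        obtain ⟨i, hi⟩ : Odd ((3 : ℤ) ^ j) := Odd.pow (by decide)
        refine ⟨i, ?_⟩
        rw [pow_succ, hi]
        ring
    unfold f₃
    rcases h2 with h2 | ⟨i, h2⟩
    · rw [h2] at h
      split_ifs <;> omega
    · rw [h2] at h
      split_ifs <;> omega
  rw [h1]
  exact h

theorem orb_invariant {g : Equiv.Perm ℤ} (hg : g ∈ G) : ∀ n ∈ Orb, g n ∈ Orb ∧ g⁻¹ n ∈ Orb := by
  unfold G at hg
  induction hg using Subgroup.closure_induction with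
  | mem x hx =>
    intro n hn
    simp only [Set.mem_insert_iff, Set.mem_singleton_iff] at hx
    rcases hx with rfl | rfl | rfl
    · exact ⟨f₁_orb hn, f₁_orb hn⟩
    · exact ⟨f₂_orb hn, f₂_orb hn⟩
    · exact ⟨f₃_orb hn, f₃_orb hn⟩
  | one =>
    intro n hn
    exact ⟨hn, by simpa using hn⟩
  | mul x y _ _ hx hy =>
    intro n hn
    refine ⟨?_, ?_⟩
    · rw [Equiv.Perm.mul_apply]
      exact (hx _ (hy n hn).1).1
    · rw [mul_inv_rev, Equiv.Perm.mul_apply]
      exact (hy _ (hx n hn).2).2
  | inv x _ hx =>
    intro n hn
    refine ⟨(hx n hn).2, ?_⟩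
    rw [inv_inv]
    exact (hx n hn).1

theorem not_reach : ¬ ∃ g ∈ G, g (48 : ℤ) = 0 := by
  rintro ⟨g, hg, h⟩
  have h1 : (48 : ℤ) ∈ Orb := ⟨0, Or.inl (by norm_num)⟩
  have h2 := (orb_invariant hg 48 h1).1
  rw [h] at h2
  obtain ⟨j, h2⟩ := h2
  have h3 : (0 : ℤ) < 3 ^ j := by positivity
  omega

/-- Q1 has a negative answer: the three class transpositions which interchange `0(2)` and `1(2)`,
`0(2)` and `5(6)`, `10(12)` and `8(15)` satisfy both conditions, with `m = 60` (and even all of
`0, 1, ..., 47` lie in one orbit), but the orbit of `48` is contained in the set of the numbers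
`50 * 3 ^ j - 2` and `50 * 3 ^ j - 1`. -/
theorem result :
    (∃ t₁ t₂ t₃ : Equiv.Perm ℤ,
      IsClassTransposition t₁ 0 2 1 2 ∧
      IsClassTransposition t₂ 0 2 5 6 ∧
      IsClassTransposition t₃ 10 12 8 15 ∧
      (∀ U : Set ℤ, IsUnionOfClasses 60 U → Stabilizes (Subgroup.closure {t₁, t₂, t₃}) U →
        U = ∅ ∨ U = Set.univ) ∧
      (∀ a b : ℤ, 0 ≤ a → a ≤ 47 → 0 ≤ b → b ≤ 47 →
        ∃ g ∈ Subgroup.closure {t₁, t₂, t₃}, g a = b) ∧
      ∀ g ∈ Subgroup.closure {t₁, t₂, t₃}, ∃ j : ℕ,
        g 48 = 50 * 3 ^ j - 2 ∨ g 48 = 50 * 3 ^ j - 1) ∧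
    ¬ Assertion 42 ∧ ¬ Assertion 47 := by
  have key : ∀ N : ℤ, N ≤ 47 → ¬ Assertion N := by
    intro N hN hA
    have h := hA t₁ t₂ t₃ 0 2 1 2 0 2 5 6 10 12 8 15 ct₁ ct₂ ct₃ condition_one
      (fun a b ha ha' hb hb' => condition_two a b ha (ha'.trans hN) hb (hb'.trans hN))
      48 0 (by norm_num) le_rfl
    exact not_reach h
  refine ⟨⟨t₁, t₂, t₃, ct₁, ct₂, ct₃, condition_one, condition_two, ?_⟩,
    key 42 (by norm_num), key 47 le_rfl⟩
  intro g hg
  have h1 : (48 : ℤ) ∈ Orb := ⟨0, Or.inl (by norm_num)⟩
  exact (orb_invariant hg 48 h1).1

end Pool.Agent.Results.MP_d0f150_al.ThreeClassTranspositions
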